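import Pool.Agent.Lib.MP_8f60dc_al.Main

/-!
# MP_8f60dc_al : isomorphic complex Leavitt path algebras have homotopy equivalent C*-algebras

For all countable directed graphs `E` and `F`: every isomorphism `Φ` of the complex Leavitt path
algebras (as algebras) is realised, up to homotopy, by a homotopy equivalence of the graph
C*-algebras, which is nondegenerate and respects the closed ideals generated by idempotents of
the Leavitt path algebras.
-/

set_option autoImplicit false

namespace Pool.Agent.Results.MP_8f60dc_al.HomotopyEquivalence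

open Pool.Agent.Lib.MP_8f60dc_al
open scoped unitInterval

theorem result (E F : DGraph) [Countable E.V] [Countable E.Ed] [Countable F.V] [Countable F.Ed]
    (A B : Type) [NonUnitalCStarAlgebra A] [NonUnitalCStarAlgebra B]
    (l : Fam E A) (m : Fam F B) (hA : IsGraphCStar E A l) (hB : IsGraphCStar F B m)
    (Φ : LPA E → LPA F) (hΦ : IsAlgIso Φ) :
    ∃ (i : LPA E → A) (j : LPA F → B), IsCanonical l i ∧ IsCanonical m j ∧
      ∃ (f : SHom A B) (g : SHom B A) (H : I → SHom A A) (K : I → SHom B B),
        IsEquivalence f g H K ∧ AlgHomotopic (fun x => f (i x)) (fun x => j (Φ x)) ∧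
        ∀ X : Set (LPA E), (∀ p ∈ X, p * p = p) →
          Respects f g H K (Idl (i '' X)) (Idl (j '' (Φ '' X))) := by
  obtain ⟨hb, φ, hφ⟩ := hΦ
  have e : Φ = φ := funext fun x => (hφ x).symm
  subst e
  obtain ⟨i, j, hi, hj, f, g, H, K, h1, h2, h3⟩ := main hA hB φ hb
  exact ⟨i, j, ⟨hi, i, fun _ => rfl⟩, ⟨hj, j, fun _ => rfl⟩, f, g, H, K, h1, h2, h3⟩

end Pool.Agent.Results.MP_8f60dc_al.HomotopyEquivalence
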