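import Pool.Agent.Lib.MP_8f60dc_al.IB.Fin
import Pool.Agent.Lib.MP_8f60dc_al.IB.P.adj
import Pool.Agent.Lib.MP_8f60dc_al.IB.P.amp
import Pool.Agent.Lib.MP_8f60dc_al.IB.P.ampIso
import Pool.Agent.Lib.MP_8f60dc_al.IB.P.back
import Pool.Agent.Lib.MP_8f60dc_al.IB.P.card
import Pool.Agent.Lib.MP_8f60dc_al.IB.P.choice
import Pool.Agent.Lib.MP_8f60dc_al.IB.P.cyc
import Pool.Agent.Lib.MP_8f60dc_al.IB.P.der
import Pool.Agent.Lib.MP_8f60dc_al.IB.P.fwd
import Pool.Agent.Lib.MP_8f60dc_al.IB.P.idem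
import Pool.Agent.Lib.MP_8f60dc_al.IB.P.idlId
import Pool.Agent.Lib.MP_8f60dc_al.IB.P.noreg
import Pool.Agent.Lib.MP_8f60dc_al.IB.P.plusG
import Pool.Agent.Lib.MP_8f60dc_al.IB.P.plusL
import Pool.Agent.Lib.MP_8f60dc_al.IB.P.pmem
import Pool.Agent.Lib.MP_8f60dc_al.IB.P.reduce
import Pool.Agent.Lib.MP_8f60dc_al.IB.P.rel
import Pool.Agent.Lib.MP_8f60dc_al.IB.P.trace

/-!
# MP_8f60dc_al : Q1 for all countable infinitely branching graphs

If `E` and `F` are countable graphs with infinite branching, then the complex Leavitt path algebras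
are isomorphic as algebras if and only if the reachability relations are isomorphic, and then there
is a *-isomorphism of the graph C*-algebras which restricts to an isomorphism of the Leavitt path
algebras.
-/

set_option autoImplicit false

namespace Pool.Agent.Results.MP_8f60dc_al.InfiniteBranching

open Pool.Agent.Lib.MP_8f60dc_al
open Pool.Agent.Lib.MP_8f60dc_al.IB

theorem result (E F : DGraph) [Countable E.V] [Countable E.Ed] [Countable F.V] [Countable F.Ed]
    (hE : E.InfBranch) (hF : F.InfBranch) :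
    ((∃ Φ : LPA E → LPA F, IsAlgIso Φ) ↔ ∃ β : E.V ≃ F.V, ∀ v w,
      Relation.TransGen E.Step v w ↔ Relation.TransGen F.Step (β v) (β w)) ∧
    ∀ (A B : Type) [NonUnitalCStarAlgebra A] [NonUnitalCStarAlgebra B] (l : Fam E A) (m : Fam F B),
      IsGraphCStar E A l → IsGraphCStar F B m → (∃ Φ : LPA E → LPA F, IsAlgIso Φ) →
      ∃ (i : LPA E → A) (j : LPA F → B), IsCanonical l i ∧ IsCanonical m j ∧
        Function.Injective i ∧ Function.Injective j ∧
        ∃ (f : A ≃⋆ₐ[ℂ] B) (Ψ : LPA E → LPA F), IsAlgIso Ψ ∧ ∀ x, f (i x) = j (Ψ x) := by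
  have hred := p_reduce p_idlId
  have hpmem := p_pmem p_noreg p_trace
  have hideal := p_ideal hred p_idlId
  have hinj := p_inj hred
  have hrel := p_rel p_idlId hpmem hideal
  have hidem := p_idem p_der
  have hcard := p_card p_noreg p_trace hidem hrel
  have hcyc := p_cyc p_idlId hred hrel hpmem
  have hampIso := p_ampIso p_noreg p_choice p_plusL p_amp hinj hpmem p_plusG p_adj
  exact fin_result hinj (p_fwd p_equiv hrel hcard hcyc) (p_back p_noreg hampIso p_amp) E F hE hF

end Pool.Agent.Results.MP_8f60dc_al.InfiniteBranching
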