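import Pool.Agent.Lib.MP_8f60dc_al.NX.Main
import Pool.Agent.Lib.MP_8f60dc_al.NX.Emb

/-!
# MP_8f60dc_al : Q1 for all countable no-exit graphs

If `E` is a countable graph in which no cycle has an exit, `F` is a countable graph and the complex
Leavitt path algebras are isomorphic as algebras, then there is a *-isomorphism of the graph
C*-algebras which restricts to an isomorphism of the Leavitt path algebras.
-/

set_option autoImplicit false

namespace Pool.Agent.Results.MP_8f60dc_al.NoExitGraphs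

open Pool.Agent.Lib.MP_8f60dc_al

theorem result (E F : DGraph) [Countable E.V] [Countable E.Ed] [Countable F.V] [Countable F.Ed]
    (hE : E.NoExit) (A B : Type) [NonUnitalCStarAlgebra A] [NonUnitalCStarAlgebra B]
    (l : Fam E A) (m : Fam F B) (hA : IsGraphCStar E A l) (hB : IsGraphCStar F B m)
    (Φ : LPA E → LPA F) (hΦ : IsAlgIso Φ) :
    ∃ (i : LPA E → A) (j : LPA F → B), IsCanonical l i ∧ IsCanonical m j ∧
      Function.Injective i ∧ Function.Injective j ∧
      ∃ (f : A ≃⋆ₐ[ℂ] B) (Ψ : LPA E → LPA F), IsAlgIso Ψ ∧ ∀ x, f (i x) = j (Ψ x) := by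
  obtain ⟨hb, φ, hφ⟩ := hΦ
  have e : Φ = φ := funext fun x => (hφ x).symm
  subst e
  obtain ⟨φ', h1, h2⟩ := exists_inv φ hb
  have hF : F.NoExit := noExit_of_iso (noExitCut hE) φ φ' h2
  obtain ⟨D⟩ := main_cut (noExitCut hE) (noExitCut hF) hA hB φ hb
  have hi := (noExitCut hE).embed hA
  have hj := (noExitCut hF).embed hB
  refine ⟨lLift hA.ck.lv, lLift hB.ck.lv, ⟨lLift_lf _, _, fun _ => rfl⟩,
    ⟨lLift_lf _, _, fun _ => rfl⟩, hi, hj, D.equiv, ?_⟩
  choose Ψ hΨ using D.f_range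
  have hinv : ∀ y, ∃ x, D.symm.f (lLift hB.ck.lv y) = lLift hA.ck.lv x := D.symm.f_range
  have key : ∀ x y, D.f (lLift hA.ck.lv x) = lLift hB.ck.lv y → Ψ x = y := fun x y h =>
    hj ((hΨ x).symm.trans h)
  let ψ : LPA E →ₙₐ[ℂ] LPA F :=
    { toFun := Ψ
      map_smul' := fun t x => key _ _ (by rw [map_smul, map_smul, hΨ, map_smul]; rfl)
      map_zero' := key _ _ (by rw [map_zero, map_zero, map_zero])
      map_add' := fun x y => key _ _ (by rw [map_add, map_add, hΨ, hΨ, map_add])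
      map_mul' := fun x y => key _ _ (by rw [map_mul, map_mul, hΨ, hΨ, map_mul]) }
  refine ⟨Ψ, ⟨⟨?_, ?_⟩, ψ, fun _ => rfl⟩, hΨ⟩
  · intro x y h
    apply hi
    have h3 : D.f (lLift hA.ck.lv x) = D.f (lLift hA.ck.lv y) := by rw [hΨ, hΨ, h]
    exact D.equiv.injective h3
  · intro y
    obtain ⟨x, hx⟩ := hinv y
    refine ⟨x, key x y ?_⟩
    rw [← hx, D.fg]

end Pool.Agent.Results.MP_8f60dc_al.NoExitGraphs
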